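import Pool.Agent.R665.FJ.Hn

/-!
# The Whitehead group of graphs of Farrell–Jones groups

`C` is any class of groups with the closure properties `ClosedE C` such that the Whitehead groups of
the torsion-free groups in `C` are trivial. The class of the groups that satisfy the K-theoretic
Farrell–Jones conjecture with coefficients and finite wreath products is such a class.

It is not known whether this class is closed under amalgamated products and HNN extensions. Here it
is shown that `G` is in `C` if `G` is an amalgamated product or an HNN extension, or is built in
finitely or infinitely many steps by amalgamated products, HNN extensions and directed unions, of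
groups in `C`, provided that there is a homomorphism `f` from `G` to a group `Q` in `C` whose
restriction to each edge group (amalgamated or associated subgroup) is injective. Nothing is assumed
about the restriction of `f` to the vertex groups, nor about the edge groups (beyond injectivity).

Examples:
* amalgamated products of two groups in `C` over an infinite cyclic subgroup, whose generator is
  nonzero under homomorphisms of both groups to `ℤ`;
* amalgamated products over a subgroup which is a retract of one of the two factors;
* `GL_2(K[t])`, the amalgamated product of `GL_2(K)` and the triangular group `B(K[t])` over `B(K)`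
  (Nagao), for every field `K` with `GL_2(K)` in `C`, with `f` the evaluation at `t = 0`, and hence
  its subgroups, for instance `GL_2(ℤ[t])` and `GL_2(F_q[s, t])`;
* the group of the automorphisms of the affine plane over such a field that fix the origin (Jung, van
  der Kulk), with `f` the derivative at the origin.

Outline of the proof. Let `G` be the amalgamated product of `A` and `B` over `K`. The quotient `G / R`
by the normal closure of the kernels of `f` on `A` and `B` is an amalgamated product on whose factors
`f` is injective, and so is in `C`. There is a homomorphism `Φ` from `G` to the unrestricted wreath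
product of `A` and the symmetric group of a set `V`, whose restriction to `A` is injective: `A` fixes a
point `v` of `V` where its elements have themselves as values; at all other points of `V` the values
are given by a cocycle of `Q` with values in `f(K)`, on infinitely many copies of `Q / f(K)`. The
action of `B` is given by the same cocycle, but with the point `v` as one more copy of the trivial
coset; the two actions agree on `K`. The elements of `R` are mapped to functions with finite support.
On these functions, conjugations are locally realized in finite wreath products of `A`, so the image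
of `G` under `Φ` and the projection to `G / R` is in `C` by the extension criterion. So `G` has a
homomorphism to a group in `C` which is injective on `A` and `B`, and its kernel is permutationally
free. HNN extensions are treated in the same way.
-/

set_option autoImplicit false

namespace Pool.Agent.Results.MP_8f66f0_al.EdgeInjectiveSplittings

open Pool.Agent.Y110.FJ

/-- `Γ` is torsion-free -/
def TorsionFree (Γ : Type) [Group Γ] : Prop := ∀ g : Γ, ∀ k : ℕ, 0 < k → g ^ k = 1 → g = 1

/-- the Whitehead group of `Γ` is trivial: every invertible matrix over `ℤΓ`, stabilised by an identity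
block, is `±g` on one diagonal entry times a product of commutators of invertible matrices -/
def WhTrivial (Γ : Type) [Group Γ] : Prop :=
  ∀ (n : ℕ) (A : (Matrix (Fin n) (Fin n) (MonoidAlgebra ℤ Γ))ˣ),
    ∃ (m : ℕ) (g : Γ) (ε : ℤˣ)
      (C : (Matrix (Fin n ⊕ Fin (m + 1)) (Fin n ⊕ Fin (m + 1)) (MonoidAlgebra ℤ Γ))ˣ),
      C ∈ commutator (Matrix (Fin n ⊕ Fin (m + 1)) (Fin n ⊕ Fin (m + 1))
              (MonoidAlgebra ℤ Γ))ˣ ∧
      Matrix.fromBlocks (↑A : Matrix (Fin n) (Fin n) (MonoidAlgebra ℤ Γ))
          (0 : Matrix (Fin n) (Fin (m + 1)) (MonoidAlgebra ℤ Γ))
          (0 : Matrix (Fin (m + 1)) (Fin n) (MonoidAlgebra ℤ Γ))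
          (1 : Matrix (Fin (m + 1)) (Fin (m + 1)) (MonoidAlgebra ℤ Γ)) =
        Matrix.diagonal (fun i : Fin n ⊕ Fin (m + 1) =>
            if i = Sum.inr (0 : Fin (m + 1)) then
              (MonoidAlgebra.single g ((ε : ℤ)) : MonoidAlgebra ℤ Γ) else 1) *
          (↑C : Matrix (Fin n ⊕ Fin (m + 1)) (Fin n ⊕ Fin (m + 1)) (MonoidAlgebra ℤ Γ))

/-- the groups `G` with a homomorphism `f : G → Q` that are built from groups in `C` by amalgamated
products and HNN extensions on whose edge groups `f` is injective, and by directed unions: the
fundamental groups of graphs of groups in `C` with a homomorphism to `Q` that is injective on the edge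
groups -/
inductive EdgeInjective (C : ∀ (G : Type) [Group G], Prop) (Q : Type) [Group Q] :
    ∀ (G : Type) [Group G], (G →* Q) → Prop
  | vertex (G : Type) [Group G] (f : G →* Q) : C G → EdgeInjective C Q G f
  | amalgam (G : Type) [Group G] (f : G →* Q) (A B K : Subgroup G) : Amg A B K →
      (∀ k ∈ K, f k = 1 → k = 1) → EdgeInjective C Q A (f.comp A.subtype) →
      EdgeInjective C Q B (f.comp B.subtype) → EdgeInjective C Q G f
  | hnn (M : Type) [Group M] (A B : Subgroup M) (φ : A ≃* B) (f : HNNExtension M A B φ →* Q) :
      (∀ a ∈ A, f (HNNExtension.of a) = 1 → a = 1) →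
      EdgeInjective C Q M (f.comp HNNExtension.of) → EdgeInjective C Q (HNNExtension M A B φ) f
  | iso (G H : Type) [Group G] [Group H] (e : G ≃* H) (f : H →* Q) :
      EdgeInjective C Q H f → EdgeInjective C Q G (f.comp e.toMonoidHom)
  | union (G : Type) [Group G] (f : G →* Q) (I : Type) (K : I → Subgroup G) :
      Nonempty I → Directed (· ≤ ·) K → (∀ g, ∃ i, g ∈ K i) →
      (∀ i, EdgeInjective C Q (K i) (f.comp (K i).subtype)) → EdgeInjective C Q G f

theorem result (C : ∀ (G : Type) [Group G], Prop) (hC : ClosedE C)
    (hW : ∀ (Γ : Type) [Group Γ], C Γ → TorsionFree Γ → WhTrivial Γ)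
    (Q : Type) [Group Q] (hQ : C Q) (G : Type) [Group G] (f : G →* Q)
    (hG : EdgeInjective C Q G f) : C G ∧ (TorsionFree G → WhTrivial G) := by
  have key : C G := by
    induction hG with
    | vertex G f h => exact h
    | amalgam G f A B K hamg hK _ _ ihA ihB =>
      exact Pool.Agent.R665.FJ.am hC A B K ihA ihB hQ hamg f hK
    | hnn M A B φ f hf _ ih => exact Pool.Agent.R665.FJ.hn hC ih hQ f hf
    | iso G H e f _ ih => exact hC.base.of_injective G H e.toMonoidHom e.injective ih
    | union G f I K hI hK hg _ ih =>
      let J : Type := Set.range K
      have hJ : Nonempty J := ⟨⟨K hI.some, hI.some, rfl⟩⟩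
      refine Pool.Agent.Y430.SS.of_directed hC.base G J ?_ (fun j => j.1) (fun i j h => h) ?_ ?_
      · rintro ⟨_, i, rfl⟩ ⟨_, j, rfl⟩
        obtain ⟨k, hik, hjk⟩ := hK i j
        exact ⟨⟨K k, k, rfl⟩, hik, hjk⟩
      · intro g
        obtain ⟨i, hi⟩ := hg g
        exact ⟨⟨K i, i, rfl⟩, hi⟩
      · rintro ⟨_, i, rfl⟩
        exact ih i
  exact ⟨key, hW G key⟩

end Pool.Agent.Results.MP_8f66f0_al.EdgeInjectiveSplittings
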