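import Pool.Agent.R472.GridTwo

set_option autoImplicit false

/-! # Whitehead groups and the square grid

Every square matrix over the integral group ring of a group with generating set `S` is, up to
stabilisation and factors which are zero in `K₁`, a matrix whose rows and columns are different
points of the square grid `ℤ²`, whose entries are zero except between neighbouring points of the
grid, whose nonzero entries are of the form `± s` with `s = 1`, `s ∈ S` or `s⁻¹ ∈ S`, and which has at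
most three of them in each row and in each column. Invertible matrices with entries `0`, `± g` and at
most two nonzero entries in each row (or in each column) are zero in the Whitehead group. So the
Whitehead group vanishes if and only if it vanishes on the planar graphs of degree at most three with
edges labelled by `± S`.

Outline. Over any ring which is generated by a set `G = - G` containing `1`: the matrix
`(1, 0; A, 1)` is a product of elementary matrices, so (commutators) of elementary matrices between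
neighbouring indices with coefficients in `G`. Write the steps one above the other: one variable for
each of the indices (called wires) at each time, one equation for each step. The variable of an even wire
is used at the same time, that of an odd wire one time step later; this puts rows and columns at
points of the grid. -/

namespace Pool.Agent.Results.MP_8f66f0_al.GridForm

open Matrix

section defs

variable {Γ : Type} [Group Γ]

/-- neighbouring points of the square grid -/
def Neighbours (a b : ℤ × ℤ) : Prop :=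
  (a.1 = b.1 ∧ (a.2 = b.2 + 1 ∨ a.2 + 1 = b.2)) ∨ (a.2 = b.2 ∧ (a.1 = b.1 + 1 ∨ a.1 + 1 = b.1))

/-- A matrix which is supported on a finite piece of the square grid: its rows are at the points
`ρ i`, its columns at the points `c j`, all these points are different, the entry at `i j` is zero
unless `ρ i` and `c j` are neighbours; the nonzero entries are `± s` with `s = 1`, `s ∈ S` or
`s⁻¹ ∈ S`; each row and each column has at most three of them. -/
def OnGrid (S : Set Γ) {κ : Type} (B : Matrix κ κ (MonoidAlgebra ℤ Γ)) : Prop :=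
  ∃ ρ c : κ → ℤ × ℤ, Function.Injective ρ ∧ Function.Injective c ∧ (∀ i j, ρ i ≠ c j) ∧
    (∀ i j, B i j ≠ 0 → Neighbours (ρ i) (c j)) ∧
    (∀ i j, B i j = 0 ∨ ∃ s : Γ, (s = 1 ∨ s ∈ S ∨ s⁻¹ ∈ S) ∧
      (B i j = MonoidAlgebra.single s 1 ∨ B i j = MonoidAlgebra.single s (-1))) ∧
    (∀ i, {j | B i j ≠ 0}.ncard ≤ 3) ∧ (∀ j, {i | B i j ≠ 0}.ncard ≤ 3)

/-- all nonzero entries are `± g`, and each row, or each column, has at most two of them -/
def AtMostTwo {κ : Type} (B : Matrix κ κ (MonoidAlgebra ℤ Γ)) : Prop :=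
  (∀ i j, B i j = 0 ∨ ∃ g : Γ, B i j = MonoidAlgebra.single g 1 ∨
      B i j = MonoidAlgebra.single g (-1)) ∧
    ((∀ i, {j | B i j ≠ 0}.ncard ≤ 2) ∨ (∀ j, {i | B i j ≠ 0}.ncard ≤ 2))

/-- the square matrix `x` over `ℤΓ`, stabilised by an identity block, is a product of commutators of
invertible matrices -/
def ZeroInK1 {κ : Type} [Fintype κ] [DecidableEq κ]
    (x : Matrix κ κ (MonoidAlgebra ℤ Γ)) : Prop :=
  ∃ (m : ℕ) (C : (Matrix (κ ⊕ Fin m) (κ ⊕ Fin m) (MonoidAlgebra ℤ Γ))ˣ),
    C ∈ commutator (Matrix (κ ⊕ Fin m) (κ ⊕ Fin m) (MonoidAlgebra ℤ Γ))ˣ ∧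
    Matrix.fromBlocks x 0 0 (1 : Matrix (Fin m) (Fin m) (MonoidAlgebra ℤ Γ)) = ↑C

/-- the square matrix `x` over `ℤΓ`, stabilised by an identity block, is `± g` on one diagonal entry
times a product of commutators of invertible matrices (the form of the frozen statement) -/
def ZeroInWh {κ : Type} [Fintype κ] [DecidableEq κ]
    (x : Matrix κ κ (MonoidAlgebra ℤ Γ)) : Prop :=
  ∃ (m : ℕ) (g : Γ) (ε : ℤˣ)
    (C : (Matrix (κ ⊕ Fin (m + 1)) (κ ⊕ Fin (m + 1)) (MonoidAlgebra ℤ Γ))ˣ),
    C ∈ commutator (Matrix (κ ⊕ Fin (m + 1)) (κ ⊕ Fin (m + 1)) (MonoidAlgebra ℤ Γ))ˣ ∧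
    Matrix.fromBlocks x 0 0 (1 : Matrix (Fin (m + 1)) (Fin (m + 1)) (MonoidAlgebra ℤ Γ)) =
      Matrix.diagonal (fun i : κ ⊕ Fin (m + 1) =>
          if i = Sum.inr (0 : Fin (m + 1)) then
            (MonoidAlgebra.single g ((ε : ℤ)) : MonoidAlgebra ℤ Γ) else 1) *
        (↑C : Matrix (κ ⊕ Fin (m + 1)) (κ ⊕ Fin (m + 1)) (MonoidAlgebra ℤ Γ))

end defs

section aux

open TH57.Thr TH6.LF TH6.CX Pool.Agent.R472.Grid

variable {Γ : Type} [Group Γ] {κ : Type} [Fintype κ] [DecidableEq κ]

theorem k1_of_TT {A : (Matrix κ κ (MonoidAlgebra ℤ Γ))ˣ}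
    (h : TT (⊥ : Subgroup (MonoidAlgebra ℤ Γ)ˣ) A) : ZeroInK1 A.val := by
  obtain ⟨μ, i1, i2, h1⟩ := h
  let e : Fin (Fintype.card μ) ≃ μ := (Fintype.equivFin μ).symm
  have h3 := re_mem (⊥ : Subgroup (MonoidAlgebra ℤ Γ)ˣ) (Equiv.sumCongr (Equiv.refl κ) e) _ h1
  rw [HH_bot] at h3
  refine ⟨Fintype.card μ, _, h3, ?_⟩
  ext (i | i) (j | j) <;> simp [stm, re, Matrix.one_apply]

theorem zero_of_TT {A : (Matrix κ κ (MonoidAlgebra ℤ Γ))ˣ} (h : TT (TU Γ) A) : ZeroInWh A.val :=
  TT_explicit A h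

theorem TT_of_zero {A : (Matrix κ κ (MonoidAlgebra ℤ Γ))ˣ} (h : ZeroInWh A.val) :
    TT (TU Γ) A := by
  obtain ⟨m, g, ε, C, hC, h1⟩ := h
  refine ⟨Fin (m + 1), inferInstance, inferInstance, ?_⟩
  let u : (MonoidAlgebra ℤ Γ)ˣ :=
    { val := MonoidAlgebra.single g (ε : ℤ)
      inv := MonoidAlgebra.single g⁻¹ ((ε⁻¹ : ℤˣ) : ℤ)
      val_inv := by
        rw [MonoidAlgebra.single_mul_single, mul_inv_cancel, Units.mul_inv]; rfl
      inv_val := by
        rw [MonoidAlgebra.single_mul_single, inv_mul_cancel, Units.inv_mul]; rfl }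
  have hu : u ∈ TU Γ := ⟨g, ε, rfl⟩
  have h2 : Units.map (stm (Fin (m + 1))) A
      = Units.map (dgm (Sum.inr (0 : Fin (m + 1)))) u * C := by
    apply Units.ext
    rw [Units.val_mul]
    change fromBlocks A.val 0 0 1 = dgm (Sum.inr (0 : Fin (m + 1))) (u : MonoidAlgebra ℤ Γ) * C.val
    rw [h1, dgm_apply]
    congr 2
    funext i
    by_cases h : i = Sum.inr (0 : Fin (m + 1))
    · subst h; simp [u]
    · rw [if_neg h, Function.update_of_ne h]; rfl
  rw [h2]
  exact mul_mem (dgm_mem_HH _ _ u hu) (commutator_le_HH _ hC)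

end aux

open TH57.Thr TH6.LF TH6.CX Pool.Agent.R472.Grid in
/-- Let `Γ` be any group and `S` a set of generators of `Γ`.

(1) For every square matrix `A` over `ℤΓ` (invertible or not) there are a finite index type `ν` and
invertible matrices `P` and `Q`, zero in `K₁(ℤΓ)`, such that `P diag(A, 1) Q` is supported on a piece
of the square grid, has entries `0` and `± s`, and at most three nonzero ones in each row and column.
(2) The number three cannot be replaced by two: an invertible matrix with entries `0` and `± g`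
(`g` any elements of `Γ`, no condition on the positions) and at most two nonzero ones in each row, or
in each column, is zero in `Wh(Γ)`.
(3) Hence `Wh(Γ) = 0` if and only if all invertible matrices on the grid are zero in `Wh(Γ)`. -/
theorem result (Γ : Type) [Group Γ] (S : Set Γ) (hS : Subgroup.closure S = ⊤) :
    (∀ (n : ℕ) (A : Matrix (Fin n) (Fin n) (MonoidAlgebra ℤ Γ)),
      ∃ (ν : Type) (_ : Fintype ν) (_ : DecidableEq ν)
        (P Q : (Matrix (Fin n ⊕ ν) (Fin n ⊕ ν) (MonoidAlgebra ℤ Γ))ˣ),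
        ZeroInK1 P.val ∧ ZeroInK1 Q.val ∧ OnGrid S (P.val * fromBlocks A 0 0 1 * Q.val)) ∧
    (∀ (κ : Type) [Fintype κ] [DecidableEq κ] (A : (Matrix κ κ (MonoidAlgebra ℤ Γ))ˣ),
      AtMostTwo A.val → ZeroInWh A.val) ∧
    ((∀ (n : ℕ) (A : (Matrix (Fin n) (Fin n) (MonoidAlgebra ℤ Γ))ˣ), ZeroInWh A.val) ↔
      ∀ (κ : Type) [Fintype κ] [DecidableEq κ] (A : (Matrix κ κ (MonoidAlgebra ℤ Γ))ˣ),
        OnGrid S A.val → ZeroInWh A.val) := by
  classical
  let G : Set (MonoidAlgebra ℤ Γ) := {x | ∃ s : Γ, (s = 1 ∨ s ∈ S ∨ s⁻¹ ∈ S) ∧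
      (x = MonoidAlgebra.single s 1 ∨ x = MonoidAlgebra.single s (-1))}
  have h1 : (1 : MonoidAlgebra ℤ Γ) ∈ G := ⟨1, Or.inl rfl, Or.inl MonoidAlgebra.one_def⟩
  have hsn : ∀ (g : Γ) (z : ℤ), -(MonoidAlgebra.single g z : MonoidAlgebra ℤ Γ)
      = MonoidAlgebra.single g (-z) := by
    intro g z
    rw [MonoidAlgebra.single_neg]
  have hneg : ∀ g ∈ G, -g ∈ G := by
    rintro _ ⟨s, hs, rfl | rfl⟩
    · exact ⟨s, hs, Or.inr (hsn s 1)⟩
    · exact ⟨s, hs, Or.inl (by rw [hsn, neg_neg])⟩
  have key : ∀ (n : ℕ) (A : Matrix (Fin n) (Fin n) (MonoidAlgebra ℤ Γ)),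
      ∃ (ν : Type) (_ : Fintype ν) (_ : DecidableEq ν)
        (P Q : (Matrix (Fin n ⊕ ν) (Fin n ⊕ ν) (MonoidAlgebra ℤ Γ))ˣ),
        (∀ U : Subgroup (MonoidAlgebra ℤ Γ)ˣ, TT U P ∧ TT U Q) ∧
        OnGrid S (P.val * fromBlocks A 0 0 1 * Q.val) := fun n A =>
    grid_form h1 hneg (genBy S hS) A
  refine ⟨fun n A => ?_, fun κ _ _ A hA => ?_, ?_, ?_⟩
  · obtain ⟨ν, i1, i2, P, Q, h2, h3⟩ := key n A
    exact ⟨ν, i1, i2, P, Q, k1_of_TT (h2 ⊥).1, k1_of_TT (h2 ⊥).2, h3⟩
  · rcases hA.2 with h | h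
    · exact zero_of_TT (TT_two A h hA.1)
    · exact zero_of_TT (TT_two_col A h hA.1)
  · intro h κ _ _ A _
    let e : Fin (Fintype.card κ) ≃ κ := (Fintype.equivFin κ).symm
    have h2 := TT_of_zero (h _ (Units.map (re e) A))
    have h3 := TT_re (TU Γ) e.symm _ h2
    have h4 : Units.map (re e.symm) (Units.map (re e) A) = A := by
      apply Units.ext
      ext i j
      simp [re]
    rw [h4] at h3
    exact zero_of_TT h3
  · intro h n A
    obtain ⟨ν, i1, i2, P, Q, h2, h3⟩ := key n A.val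
    have h4 := TT_of_zero (h _ (P * Units.map (stm ν) A * Q) h3)
    have h5 : Units.map (stm ν) A
        = P⁻¹ * (P * Units.map (stm ν) A * Q) * Q⁻¹ := by group
    have h6 : TT (TU Γ) (Units.map (stm ν) A) := by
      rw [h5]
      exact TT_mul _ _ _ (TT_mul _ _ _ (TT_inv _ _ (h2 _).1) h4) (TT_inv _ _ (h2 _).2)
    exact zero_of_TT (TT_unst _ _ h6)

end Pool.Agent.Results.MP_8f66f0_al.GridForm
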