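import Pool.Agent.R669.Bw.App

/-!
# The Whitehead group of locally constant wreath products

`C` is any class of groups with the closure properties `ClosedE C` such that the Whitehead groups of
the torsion-free groups in `C` are trivial. The class of the groups that satisfy the K-theoretic
Farrell–Jones conjecture with coefficients and finite wreath products is such a class.

(1) Let `B` be in `C`, and let `G` be a group with a normal subgroup `N` which consists of functions
with finitely many values on a set `Ω` with values in `B`, such that `G ⧸ N` is in `C` and every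
element of `G` acts on `N` through a permutation of `Ω` followed by the conjugation by a function
`Ω → B` with finitely many values. Then `G` is in `C`. The extension need not split, and no element
of `G` is required to preserve a measure on `Ω`.

(2) For instance, let `Q` act by homeomorphisms on a compact space `X`, for example on the Cantor
set. If `B` and `Q` are in `C` then the semidirect product of the group of the locally constant
functions `X → B` with `Q` is in `C`.

If moreover `B` and `G ⧸ N`, respectively `Q`, are torsion-free then the Whitehead group is trivial.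

Outline of the proof. By the extension criterion it is enough to treat one element `g` of infinite
order. The group `N ⟨g⟩` is a directed colimit of HNN extensions of finitely generated groups of
functions on finite sets `T` of types, where `T` is the vertex set of a finite directed graph without
sources and sinks given by `g`. Through every vertex there is a walk which is periodic at both ends.
These walks give a homomorphism, injective on the base, to a group of functions on `T × ℤ` which are
periodic at both ends, extended by the shift. This group is an extension of a finite extension of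
`B^{2 p |T|} × ℤ` by the finitely supported functions on `T × ℤ`, on which all conjugations are locally
realized in finite wreath products of `B`.
-/

set_option autoImplicit false

namespace Pool.Agent.Results.MP_8f66f0_al.LocallyConstantFunctions

open Pool.Agent.Y110.FJ Pool.Agent.R669.Bw

/-- `Γ` is torsion-free -/
def TorsionFree (Γ : Type) [Group Γ] : Prop := ∀ g : Γ, ∀ k : ℕ, 0 < k → g ^ k = 1 → g = 1

/-- the Whitehead group of `Γ` is trivial: every invertible matrix over `ℤΓ`, stabilised by an identity
block, is `±g` on one diagonal entry times a product of commutators of invertible matrices -/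
def WhTrivial (Γ : Type) [Group Γ] : Prop :=
  ∀ (n : ℕ) (A : (Matrix (Fin n) (Fin n) (MonoidAlgebra ℤ Γ))ˣ),
    ∃ (m : ℕ) (g : Γ) (ε : ℤˣ)
      (C : (Matrix (Fin n ⊕ Fin (m + 1)) (Fin n ⊕ Fin (m + 1)) (MonoidAlgebra ℤ Γ))ˣ),
      C ∈ commutator (Matrix (Fin n ⊕ Fin (m + 1)) (Fin n ⊕ Fin (m + 1))
              (MonoidAlgebra ℤ Γ))ˣ ∧
      Matrix.fromBlocks (↑A : Matrix (Fin n) (Fin n) (MonoidAlgebra ℤ Γ))
          (0 : Matrix (Fin n) (Fin (m + 1)) (MonoidAlgebra ℤ Γ))
          (0 : Matrix (Fin (m + 1)) (Fin n) (MonoidAlgebra ℤ Γ))
          (1 : Matrix (Fin (m + 1)) (Fin (m + 1)) (MonoidAlgebra ℤ Γ)) =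
        Matrix.diagonal (fun i : Fin n ⊕ Fin (m + 1) =>
            if i = Sum.inr (0 : Fin (m + 1)) then
              (MonoidAlgebra.single g ((ε : ℤ)) : MonoidAlgebra ℤ Γ) else 1) *
          (↑C : Matrix (Fin n ⊕ Fin (m + 1)) (Fin n ⊕ Fin (m + 1)) (MonoidAlgebra ℤ Γ))

theorem result (C : ∀ (G : Type) [Group G], Prop) (hC : ClosedE C)
    (hW : ∀ (Γ : Type) [Group Γ], C Γ → TorsionFree Γ → WhTrivial Γ)
    (B : Type) [Group B] (hB : C B) :
    (∀ (G Ω : Type) [Group G] (N : Subgroup G) [N.Normal], C (G ⧸ N) →
      ∀ e : N →* (Ω → B), Function.Injective e → (∀ x, (Set.range (e x)).Finite) →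
      (∀ g : G, ∃ (τ : Equiv.Perm Ω) (n : Ω → B), (Set.range n).Finite ∧
        ∀ (x y : N) (ω : Ω), (y : G) = g * x * g⁻¹ → e y (τ ω) = n ω * e x ω * (n ω)⁻¹) →
      C G ∧ (TorsionFree B → TorsionFree (G ⧸ N) → WhTrivial G)) ∧
    (∀ (X Q : Type) [TopologicalSpace X] [CompactSpace X] [Group Q] [MulAction Q X]
      [ContinuousConstSMul Q X], C Q →
      C (LocallyConstant X B ⋊[lcAut X Q B] Q) ∧
        (TorsionFree B → TorsionFree Q → WhTrivial (LocallyConstant X B ⋊[lcAut X Q B] Q))) := by
  have hcrit : S_CRIT := Pool.Agent.R779.FJ.t_crit Pool.Agent.Y529.FJ.t_ext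
    (Pool.Agent.Y961.FJ.t_perm Pool.Agent.Y529.FJ.t_ext)
  constructor
  · intro G Ω _ N hN hQ e he hfin hact
    have h1 : C G := main hcrit C hC G Ω B hB N hQ e he hfin (fun g => by
      obtain ⟨τ, n, hn, h⟩ := hact g
      exact ⟨τ, n, hn, fun x hx ω => h ⟨x, hx⟩ ⟨_, hN.conj_mem x hx g⟩ ω rfl⟩)
    exact ⟨h1, fun h2 h3 => hW G h1 (tf_ext N e he h2 h3)⟩
  · intro X Q _ _ _ _ _ hQ
    have h1 : C (LocallyConstant X B ⋊[lcAut X Q B] Q) := lc_main hcrit C hC hB hQ
    exact ⟨h1, fun h2 h3 => hW _ h1 (lc_tf h2 h3)⟩

end Pool.Agent.Results.MP_8f66f0_al.LocallyConstantFunctions
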