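import Pool.Agent.R719.WD.Main
import Pool.Agent.Y75.Th.Piv

set_option autoImplicit false

/-! Invertible matrices over the integral group ring of a torsion-free group which are diagonally
dominant with respect to positive real weights of the columns, and the sharpness of the constant. -/

namespace Pool.Agent.Results.MP_8f66f0_al.WeightedDominance

open Matrix

section defs

variable {Γ : Type} [Group Γ]

/-- the adjoint (conjugate transpose) of a matrix over `ℤΓ`, for the involution `g ↦ g⁻¹` -/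
noncomputable def adjoint {κ μ : Type} (A : Matrix κ μ (MonoidAlgebra ℤ Γ)) :
    Matrix μ κ (MonoidAlgebra ℤ Γ) :=
  Matrix.of fun j i => MonoidAlgebra.mapDomain (fun g => g⁻¹) (A i j)

/-- the sum of the absolute values of the coefficients -/
def norm1 (x : MonoidAlgebra ℤ Γ) : ℕ := ∑ g ∈ x.coeff.support, (x.coeff g).natAbs

/-- Weighted diagonal dominance by rows: for some positive real weights `p j` and all `i`, the sum
over all `j` and `g ∈ Γ`, with `(j, g) ≠ (i, 1)`, of the absolute value of the coefficient of `g` in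
the entry at `(i, j)` times `p j` is at most the coefficient of `1` in the entry at `(i, i)` times
`p i`. -/
def WeightedDominant {κ : Type} [Fintype κ] (S : Matrix κ κ (MonoidAlgebra ℤ Γ)) : Prop :=
  ∃ p : κ → ℝ, (∀ j, 0 < p j) ∧ ∀ i,
    (∑ j, (norm1 (S i j) : ℝ) * p j) - |((S i i).coeff 1 : ℝ)| * p i
      ≤ ((S i i).coeff 1 : ℝ) * p i

/-- Diagonal dominance by rows with the factor `c` (and all weights one): in each row, the sum of the
absolute values of all coefficients of all entries, except the coefficient of `1` in the diagonal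
entry, is at most `c` times this coefficient. -/
def Dominant {κ : Type} [Fintype κ] (c : ℝ) (S : Matrix κ κ (MonoidAlgebra ℤ Γ)) : Prop :=
  ∀ i, (∑ j, (norm1 (S i j) : ℝ)) - |((S i i).coeff 1 : ℝ)| ≤ c * ((S i i).coeff 1 : ℝ)

/-- Weighted dominance up to a permutation `σ` of the columns and group elements `g i`: the coefficient of
`g i` in the entry at `(i, σ i)`, in absolute value and times `p (σ i)`, is at least the weighted sum
of the absolute values of all other coefficients in row `i`. -/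
def WeightedDominantUpToMonomial {κ : Type} [Fintype κ] (S : Matrix κ κ (MonoidAlgebra ℤ Γ)) :
    Prop :=
  ∃ (σ : κ ≃ κ) (g : κ → Γ) (p : κ → ℝ), (∀ j, 0 < p j) ∧ ∀ i,
    (∑ j, (norm1 (S i j) : ℝ) * p j) - |((S i (σ i)).coeff (g i) : ℝ)| * p (σ i)
      ≤ |((S i (σ i)).coeff (g i) : ℝ)| * p (σ i)

/-- `S` is block triangular (the blocks are the level sets of `r`), and the diagonal blocks are
integral up to conjugation with the diagonal matrix of the group elements `w i`: in these blocks only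
`w i * (w j)⁻¹` has a nonzero coefficient in the entry at `(i, j)`. -/
def TriangularIntegral {κ : Type} (S : Matrix κ κ (MonoidAlgebra ℤ Γ)) : Prop :=
  ∃ (r : κ → ℕ) (w : κ → Γ), (∀ i j, r i < r j → S i j = 0) ∧
    ∀ i j, r i = r j → ∀ g, (S i j).coeff g ≠ 0 → g = w i * (w j)⁻¹

/-- the square matrix `x` over `ℤΓ`, stabilised by an identity block, is `± g` on one diagonal entry
times a product of commutators of invertible matrices (the form of the frozen statement) -/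
def ZeroInWh {κ : Type} [Fintype κ] [DecidableEq κ]
    (x : Matrix κ κ (MonoidAlgebra ℤ Γ)) : Prop :=
  ∃ (m : ℕ) (g : Γ) (ε : ℤˣ)
    (C : (Matrix (κ ⊕ Fin (m + 1)) (κ ⊕ Fin (m + 1)) (MonoidAlgebra ℤ Γ))ˣ),
    C ∈ commutator (Matrix (κ ⊕ Fin (m + 1)) (κ ⊕ Fin (m + 1)) (MonoidAlgebra ℤ Γ))ˣ ∧
    Matrix.fromBlocks x 0 0 (1 : Matrix (Fin (m + 1)) (Fin (m + 1)) (MonoidAlgebra ℤ Γ)) =
      Matrix.diagonal (fun i : κ ⊕ Fin (m + 1) =>
          if i = Sum.inr (0 : Fin (m + 1)) then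
            (MonoidAlgebra.single g ((ε : ℤ)) : MonoidAlgebra ℤ Γ) else 1) *
        (↑C : Matrix (κ ⊕ Fin (m + 1)) (κ ⊕ Fin (m + 1)) (MonoidAlgebra ℤ Γ))

end defs

section aux

open TH57.Thr TH6.LF TH6.CX Pool.Agent.Y75.Th Pool.Agent.Y35.KC.TTm Pool.Agent.R719.DD
  Pool.Agent.R719.WD

variable {Γ : Type} [Group Γ] {κ : Type} [Fintype κ] [DecidableEq κ]

theorem wd_of_weighted {A : (Matrix κ κ (MonoidAlgebra ℤ Γ))ˣ} (h : WeightedDominant A.val) :
    ∃ p, WDom A.val p := by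
  obtain ⟨p, hp, h1⟩ := h
  refine ⟨p, hp, fun i => ?_⟩
  have h2 := h1 i
  have h3 : (0 : ℝ) ≤ (∑ j, (norm1 (A.val i j) : ℝ) * p j)
      - |((A.val i i).coeff 1 : ℝ)| * p i := by
    have e1 := Finset.single_le_sum (f := fun j => (norm1 (A.val i j) : ℝ) * p j)
      (fun j _ => mul_nonneg (Nat.cast_nonneg _) (hp j).le) (Finset.mem_univ i)
    have e2 := coeff_le_l1 (A.val i i) 1
    have e3 : |((A.val i i).coeff 1 : ℝ)| ≤ (norm1 (A.val i i) : ℝ) := by
      have : (l1 (A.val i i) : ℝ) = (norm1 (A.val i i) : ℝ) := rfl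
      rw [← this]
      exact_mod_cast e2
    have e4 := mul_le_mul_of_nonneg_right e3 (hp i).le
    linarith
  have h4 : (0 : ℝ) ≤ ((A.val i i).coeff 1 : ℝ) := by
    by_contra h5
    have := mul_neg_of_neg_of_pos (not_le.1 h5) (hp i)
    linarith
  rw [abs_of_nonneg h4] at h2
  have h5 : (∑ j, (l1 (A.val i j) : ℝ) * p j) = ∑ j, (norm1 (A.val i j) : ℝ) * p j := rfl
  rw [h5]
  linarith

theorem zero_of_TT {A : (Matrix κ κ (MonoidAlgebra ℤ Γ))ˣ} (h : TT (TU Γ) A) : ZeroInWh A.val :=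
  TT_explicit A h

/-- the adjoint as a unit -/
noncomputable def adx (A : (Matrix κ κ (MonoidAlgebra ℤ Γ))ˣ) :
    (Matrix κ κ (MonoidAlgebra ℤ Γ))ˣ :=
  ⟨adj A.val, adj A⁻¹.val, by rw [← adj_mul, A.inv_mul, adj_one],
    by rw [← adj_mul, A.mul_inv, adj_one]⟩

theorem adU_adx (A : (Matrix κ κ (MonoidAlgebra ℤ Γ))ˣ) : adU κ (adx A)⁻¹ = A := by
  apply Units.ext
  rw [adU_val, inv_inv]
  exact adj_adj _

theorem HH_bot : HH (⊥ : Subgroup (MonoidAlgebra ℤ Γ)ˣ) κ = commutator _ := by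
  refine le_antisymm (sup_le le_rfl ?_) (commutator_le_HH _)
  rw [Subgroup.closure_le]
  rintro _ ⟨i, u, hu, rfl⟩
  rw [Subgroup.mem_bot.1 hu, map_one]
  exact one_mem _

/-- the adjoint inverse -/
theorem TT_adU_bot (x : (Matrix κ κ (MonoidAlgebra ℤ Γ))ˣ)
    (hx : TT (⊥ : Subgroup (MonoidAlgebra ℤ Γ)ˣ) x) :
    TT (⊥ : Subgroup (MonoidAlgebra ℤ Γ)ˣ) (adU κ x) := by
  obtain ⟨μ, i1, i2, h1⟩ := hx
  refine ⟨μ, i1, i2, ?_⟩
  have h2 := map_HH_le (⊥ : Subgroup (MonoidAlgebra ℤ Γ)ˣ) ⊥ (adU (κ ⊕ μ)) (fun i u hu => by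
    rw [Subgroup.mem_bot.1 hu, map_one, map_one]; exact one_mem _) _ h1
  convert h2 using 1
  apply Units.ext
  rw [adU_val, ← map_inv]
  change fromBlocks (adU κ x : Matrix κ κ (MonoidAlgebra ℤ Γ)) 0 0 1
    = adj (fromBlocks (↑x⁻¹ : Matrix κ κ (MonoidAlgebra ℤ Γ)) 0 0 1)
  rw [adj_fromBlocks, adj_zero, adj_zero, adj_one, adU_val]

theorem TT_of_zero {A : (Matrix κ κ (MonoidAlgebra ℤ Γ))ˣ} (h : ZeroInWh A.val) :
    TT (TU Γ) A := by
  obtain ⟨m, g, ε, C, hC, h1⟩ := h
  refine ⟨Fin (m + 1), inferInstance, inferInstance, ?_⟩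
  let u : (MonoidAlgebra ℤ Γ)ˣ :=
    { val := MonoidAlgebra.single g (ε : ℤ)
      inv := MonoidAlgebra.single g⁻¹ ((ε⁻¹ : ℤˣ) : ℤ)
      val_inv := by
        rw [MonoidAlgebra.single_mul_single, mul_inv_cancel, Units.mul_inv]; rfl
      inv_val := by
        rw [MonoidAlgebra.single_mul_single, inv_mul_cancel, Units.inv_mul]; rfl }
  have hu : u ∈ TU Γ := ⟨g, ε, rfl⟩
  have h2 : Units.map (stm (Fin (m + 1))) A
      = Units.map (dgm (Sum.inr (0 : Fin (m + 1)))) u * C := by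
    apply Units.ext
    rw [Units.val_mul]
    change fromBlocks A.val 0 0 1 = dgm (Sum.inr (0 : Fin (m + 1))) (u : MonoidAlgebra ℤ Γ) * C.val
    rw [h1, dgm_apply]
    congr 2
    funext i
    by_cases h : i = Sum.inr (0 : Fin (m + 1))
    · subst h; simp [u]
    · rw [if_neg h, Function.update_of_ne h]; rfl
  rw [h2]
  exact mul_mem (dgm_mem_HH _ _ u hu) (commutator_le_HH _ hC)

theorem key (c : ℝ) (hc : 1 < c) (A : (Matrix κ κ (MonoidAlgebra ℤ Γ))ˣ) : ∃ (N : ℕ)
    (P Q : (Matrix (κ ⊕ κ × Fin N) (κ ⊕ κ × Fin N) (MonoidAlgebra ℤ Γ))ˣ),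
      (TT (TU Γ) P ∧ TT (TU Γ) Q) ∧
      Dominant c (P.val * fromBlocks A.val 0 0 1 * Q.val) ∧
      Dominant c (adjoint (P.val * fromBlocks A.val 0 0 1 * Q.val)) := by
  classical
  obtain ⟨N₁, h1⟩ := dom_stab c hc A.val
  obtain ⟨N₂, h2⟩ := dom_stab c hc (adj A.val)
  refine ⟨max N₁ N₂, pm Γ κ (max N₁ N₂), adx (pm Γ κ (max N₁ N₂)), ?_, ?_, ?_⟩
  · have h3 : ∀ N : ℕ, TT (⊥ : Subgroup (MonoidAlgebra ℤ Γ)ˣ) (pm Γ κ N) := TT_pm' ⊥
    refine ⟨TT_pm' (TU Γ) _, ?_⟩
    have h4 := TT_adU_bot _ (TT_inv _ _ (h3 (max N₁ N₂)))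
    have h5 : adU (κ ⊕ κ × Fin (max N₁ N₂)) (pm Γ κ (max N₁ N₂))⁻¹
        = adx (pm Γ κ (max N₁ N₂)) := by
      apply Units.ext
      rw [adU_val, inv_inv]; rfl
    rw [h5] at h4
    obtain ⟨μ, i1, i2, h6⟩ := h4
    exact ⟨μ, i1, i2, commutator_le_HH (TU Γ) (by rw [HH_bot] at h6; exact h6)⟩
  · have h3 := h1 _ (le_max_left N₁ N₂)
    rw [← pm_mul] at h3
    exact h3
  · have h3 := h2 _ (le_max_right N₁ N₂)
    have h4 : adj ((pm Γ κ (max N₁ N₂)).val * fromBlocks A.val 0 0 1 *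
        adj (pm Γ κ (max N₁ N₂)).val)
        = (pm Γ κ (max N₁ N₂)).val * fromBlocks (adj A.val) 0 0 1 *
          adj (pm Γ κ (max N₁ N₂)).val := by
      rw [adj_mul, adj_mul, adj_adj, adj_fromBlocks, adj_zero, adj_zero, adj_one,
        Matrix.mul_assoc]
    rw [← pm_mul, ← h4] at h3
    exact h3

/-- rows dominated by one coefficient -/
theorem TT_mono (htf : ∀ g : Γ, ∀ k : ℕ, 0 < k → g ^ k = 1 → g = 1)
    (A : (Matrix κ κ (MonoidAlgebra ℤ Γ))ˣ) (h : WeightedDominantUpToMonomial A.val) :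
    TT (TU Γ) A := by
  classical
  obtain ⟨σ, g, p, hp, hg⟩ := h
  -- signs
  have hs : ∀ i, ∃ ε : ℤ, ε * ε = 1 ∧ ε * (A.val i (σ i)).coeff (g i)
      = |(A.val i (σ i)).coeff (g i)| := by
    intro i
    rcases abs_choice ((A.val i (σ i)).coeff (g i)) with h1 | h1
    · exact ⟨1, by norm_num, by rw [h1, one_mul]⟩
    · exact ⟨-1, by norm_num, by rw [h1]; ring⟩
  choose ε hε1 hε2 using hs
  let D := dgs (fun i => (g i)⁻¹) ε hε1
  let P := pu (R := MonoidAlgebra ℤ Γ) σ.symm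
  have hP : ∀ (X : Matrix κ κ (MonoidAlgebra ℤ Γ)) i j, (X * P.val) i j = X i (σ j) := by
    intro X i j
    rw [Matrix.mul_apply, Finset.sum_eq_single (σ j)]
    · change X i (σ j) * (1 : Matrix κ κ (MonoidAlgebra ℤ Γ)) (σ.symm (σ j)) j = _
      rw [Equiv.symm_apply_apply, Matrix.one_apply_eq, mul_one]
    · intro k _ hk
      change X i k * (1 : Matrix κ κ (MonoidAlgebra ℤ Γ)) (σ.symm k) j = _
      rw [Matrix.one_apply_ne, mul_zero]
      intro h1
      exact hk (by rw [← h1, Equiv.apply_symm_apply])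
    · simp
  have hD : ∀ i j, (D * A * P).val i j
      = MonoidAlgebra.single (g i)⁻¹ (ε i) * A.val i (σ j) := by
    intro i j
    rw [Units.val_mul, hP, Units.val_mul]
    change (Matrix.diagonal (fun i => MonoidAlgebra.single (g i)⁻¹ (ε i)) * A.val) i (σ j) = _
    rw [Matrix.diagonal_mul]
  have h1 : WDom (D * A * P).val (fun j => p (σ j)) := by
    refine ⟨fun j => hp _, fun i => ?_⟩
    have e1 : ((D * A * P).val i i).coeff 1 = |(A.val i (σ i)).coeff (g i)| := by
      rw [hD, MonoidAlgebra.coeff_single_mul_apply, ← hε2]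
      simp
    rw [e1]
    have e3 : ∑ j, (norm1 (A.val i j) : ℝ) * p j
        ≤ 2 * (|((A.val i (σ i)).coeff (g i) : ℝ)|) * p (σ i) := by
      have := hg i
      linarith
    refine le_trans ?_ (le_trans e3 (le_of_eq (by push_cast; rfl)))
    rw [← Equiv.sum_comp σ (fun j => (norm1 (A.val i j) : ℝ) * p j)]
    refine Finset.sum_le_sum fun j _ => mul_le_mul_of_nonneg_right ?_ (hp _).le
    rw [hD]
    have e2 := l1_single_mul (g i)⁻¹ (ε i) (A.val i (σ j))
    have e3 : (ε i).natAbs = 1 := by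
      have := congrArg Int.natAbs (hε1 i)
      rw [Int.natAbs_mul] at this
      exact Nat.eq_one_of_mul_eq_one_left this
    rw [e3, one_mul] at e2
    exact_mod_cast e2
  have h2 := (TT_wdom htf _ κ rfl (D * A * P) _ h1).1
  have h3 : A = D⁻¹ * (D * A * P) * P⁻¹ := by group
  rw [h3]
  exact TT_mul _ _ _ (TT_mul _ _ _ (TT_inv _ _ (TT_of_mem _ _ (dgs_mem _ _ _))) h2)
    (TT_inv _ _ (TT_pu _))

end aux

open TH57.Thr TH6.LF TH6.CX Pool.Agent.Y75.Th Pool.Agent.Y35.KC.TTm Pool.Agent.R719.DD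
  Pool.Agent.R719.WD in
/-- Let `Γ` be a torsion-free group and `A` an invertible matrix over `ℤΓ`. (1) If `A` is diagonally
dominant by rows with respect to some positive weights, `A` is block triangular and its diagonal
blocks are integral up to a diagonal matrix of group elements. (2) If, up to a permutation of the
columns, each row of `A` or of its adjoint is dominated by one coefficient with respect to some
positive weights, `A` is zero in `Wh(Γ)`. (3) The implicit factor `1` is sharp: for every real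
`c > 1` and every invertible `A` there are invertible matrices `P` and `Q`, zero in `Wh(Γ)`, such that
`P diag(A, 1) Q` is diagonally dominant by rows and by columns with the factor `c` (with all weights
one); hence `Wh(Γ)` is zero exactly if all such matrices are zero in `Wh(Γ)`. -/
theorem result (Γ : Type) [Group Γ]
    (htf : ∀ g : Γ, ∀ k : ℕ, 0 < k → g ^ k = 1 → g = 1) :
    (∀ (κ : Type) [Fintype κ] [DecidableEq κ] (A : (Matrix κ κ (MonoidAlgebra ℤ Γ))ˣ),
      (WeightedDominant A.val → TriangularIntegral A.val) ∧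
      (WeightedDominantUpToMonomial A.val ∨ WeightedDominantUpToMonomial (adjoint A.val) →
        ZeroInWh A.val)) ∧
    ∀ c : ℝ, 1 < c →
      (∀ (κ : Type) [Fintype κ] [DecidableEq κ] (A : (Matrix κ κ (MonoidAlgebra ℤ Γ))ˣ),
        ∃ (N : ℕ) (P Q : (Matrix (κ ⊕ κ × Fin N) (κ ⊕ κ × Fin N) (MonoidAlgebra ℤ Γ))ˣ),
          ZeroInWh P.val ∧ ZeroInWh Q.val ∧
          Dominant c (P.val * fromBlocks A.val 0 0 1 * Q.val) ∧
          Dominant c (adjoint (P.val * fromBlocks A.val 0 0 1 * Q.val))) ∧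
      ((∀ (κ : Type) [Fintype κ] [DecidableEq κ] (A : (Matrix κ κ (MonoidAlgebra ℤ Γ))ˣ),
          ZeroInWh A.val) ↔
        ∀ (κ : Type) [Fintype κ] [DecidableEq κ] (A : (Matrix κ κ (MonoidAlgebra ℤ Γ))ˣ),
          Dominant c A.val → Dominant c (adjoint A.val) → ZeroInWh A.val) := by
  classical
  refine ⟨fun κ _ _ A => ⟨fun h => ?_, ?_⟩, fun c hc => ⟨?_, ?_⟩⟩
  · obtain ⟨p, hp⟩ := wd_of_weighted h
    exact (TT_wdom htf _ κ rfl A p hp).2
  · rintro (h | h)
    · exact zero_of_TT (TT_mono htf A h)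
    · have h1 : TT (TU Γ) (adx A) := TT_mono htf (adx A) h
      have h2 := TT_adU _ (TT_inv _ _ h1)
      rw [adU_adx] at h2
      exact zero_of_TT h2
  · intro κ _ _ A
    obtain ⟨N, P, Q, h1, h2, h3⟩ := key c hc A
    exact ⟨N, P, Q, zero_of_TT h1.1, zero_of_TT h1.2, h2, h3⟩
  · refine ⟨fun h κ _ _ A _ _ => h κ A, fun h κ _ _ A => ?_⟩
    obtain ⟨N, P, Q, h1, h2, h3⟩ := key c hc A
    have h4 := TT_of_zero (h _ (P * Units.map (stm (κ × Fin N)) A * Q) h2 h3)
    have h5 : Units.map (stm (κ × Fin N)) A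
        = P⁻¹ * (P * Units.map (stm (κ × Fin N)) A * Q) * Q⁻¹ := by group
    have h6 : TT (TU Γ) (Units.map (stm (κ × Fin N)) A) := by
      rw [h5]
      exact TT_mul _ _ _ (TT_mul _ _ _ (TT_inv _ _ h1.1) h4) (TT_inv _ _ h1.2)
    exact zero_of_TT (TT_unst _ _ h6)

end Pool.Agent.Results.MP_8f66f0_al.WeightedDominance
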